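import Mathlib
import Pool.Agent.H38.WT.Defs
import Pool.Agent.H38.WT.Targets
import Pool.Agent.H1.WT.SD
import Pool.Agent.H1.WT.SF
import Pool.Agent.H11.WT.RCON
import Pool.Agent.H12.WT.SI
import Pool.Agent.H13.WT.CNT
import Pool.Agent.H19.WT.INB
import Pool.Agent.H19.WT.TPI
import Pool.Agent.H2.WT.SJ
import Pool.Agent.H20.WT.CUT
import Pool.Agent.H20.WT.D21
import Pool.Agent.H33.WT.GI
import Pool.Agent.H33.WT.GUN
import Pool.Agent.H33.WT.SA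
import Pool.Agent.H34.WT.FIN
import Pool.Agent.H35.WT.CNL
import Pool.Agent.H36.WT.SK
import Pool.Agent.H4.WT.STP
import Pool.Agent.H42.WT.INA
import Pool.Agent.H42.WT.STN
import Pool.Agent.H45.WT.ONE
import Pool.Agent.H49.WT.SB
import Pool.Agent.H5.WT.PT
import Pool.Agent.H54.WT.SE
import Pool.Agent.H67.WT.GMN
import Pool.Agent.H68.WT.EXC
import Pool.Agent.H68.WT.REL
import Pool.Agent.H7.WT.DWB
import Pool.Agent.H74.WT.DWF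
import Pool.Agent.H75.WT.D12
import Pool.Agent.H75.WT.SC
import Pool.Agent.H79.WT.MU
import Pool.Agent.H94.WT.CYC
import Pool.Agent.H99.WT.SG

/-!
# MP_0cb3c0_co: agreement of initial segments of `μ` does not give agreement of `C₂`
-/

set_option autoImplicit false

namespace Pool.Agent.Results.MP_0cb3c0_co.InitialSegments

open Pool.Agent.H38.WT

theorem m_GI : T_GI := Pool.Agent.H33.WT.pf_GI Pool.Agent.H67.WT.pf_GMN Pool.Agent.H33.WT.pf_GUN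
  Pool.Agent.H35.WT.pf_CNL

theorem m_TPI : T_TPI := Pool.Agent.H19.WT.pf_TPI m_GI Pool.Agent.H67.WT.pf_CFI Pool.Agent.H33.WT.pf_GUN

theorem m_STP : T_STP := Pool.Agent.H4.WT.pf_STP Pool.Agent.H67.WT.pf_GMN Pool.Agent.H33.WT.pf_GUN
  Pool.Agent.H67.WT.pf_CFI m_GI m_TPI
  (Pool.Agent.H42.WT.pf_INA Pool.Agent.H67.WT.pf_GMN Pool.Agent.H33.WT.pf_GUN)
  (Pool.Agent.H19.WT.pf_INB Pool.Agent.H67.WT.pf_GMN Pool.Agent.H33.WT.pf_GUN) Pool.Agent.H68.WT.pf_EXC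

theorem m_ONE : T_ONE := Pool.Agent.H45.WT.pf_ONE Pool.Agent.H94.WT.pf_CYC
  (Pool.Agent.H67.WT.pf_TOP Pool.Agent.H33.WT.pf_GUN) m_TPI Pool.Agent.H42.WT.pf_STN m_STP
  Pool.Agent.H67.WT.pf_CFI

theorem m_DWB : T_DWB := Pool.Agent.H7.WT.pf_DWB Pool.Agent.H11.WT.pf_CON Pool.Agent.H20.WT.pf_CUT

theorem m_MU : T_MU := Pool.Agent.H79.WT.pf_MU
  (Pool.Agent.H13.WT.pf_CNT m_ONE Pool.Agent.H20.WT.pf_CUT Pool.Agent.H68.WT.pf_REL)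
  (Pool.Agent.H75.WT.pf_D12 Pool.Agent.H74.WT.pf_DWF m_DWB Pool.Agent.H5.WT.PT.pf_PT)
  (Pool.Agent.H20.WT.pf_D21 Pool.Agent.H74.WT.pf_DWF m_DWB Pool.Agent.H5.WT.PT.pf_PT)

theorem m_SK : T_SK := Pool.Agent.H36.WT.pf_SK (Pool.Agent.H49.WT.pf_SB Pool.Agent.H33.WT.pf_SA)
  (Pool.Agent.H1.WT.pf_SD Pool.Agent.H75.WT.pf_SC Pool.Agent.H68.WT.pf_REL)
  (Pool.Agent.H54.WT.pf_SE Pool.Agent.H75.WT.pf_SC Pool.Agent.H68.WT.pf_REL Pool.Agent.H5.WT.PT.pf_PT)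
  Pool.Agent.H5.WT.PT.pf_PT (Pool.Agent.H1.WT.pf_SF Pool.Agent.H5.WT.PT.pf_PT) Pool.Agent.H99.WT.pf_SG
  (Pool.Agent.H2.WT.pf_SJ Pool.Agent.H99.WT.pf_SH Pool.Agent.H12.WT.pf_SI)

/-- For `n ≥ 4` the paths `1 - 2 - 3 - ⋯ - n` and `2 - 1 - 3 - ⋯ - n` have the same support counts
`μ(m)` for all `m ≤ 2 n - 7`, but their second collision moments at `m = n + 1` differ by at least
`n - 108`.  Hence for every `K` there are labeled trees `T₁`, `T₂` on `n` vertices with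
`μ_{T₁}(m) = μ_{T₂}(m)` for all `m ≤ n + K` and `C₂(T₁; n + 1) ≠ C₂(T₂; n + 1)`. -/
theorem result :
    (∀ n : ℕ, 4 ≤ n → (pI n).IsTree ∧ (pJ n).IsTree ∧
      (∀ m : ℕ, m + 7 ≤ 2 * n → mu (pI n) m = mu (pJ n) m) ∧
      C2 (pJ n) (n + 1) + n ≤ C2 (pI n) (n + 1) + 108) ∧
    (∀ K : ℕ, ∃ n : ℕ, ∃ T₁ T₂ : SimpleGraph (Fin n), T₁.IsTree ∧ T₂.IsTree ∧
      (∀ m : ℕ, m ≤ n + K → mu T₁ m = mu T₂ m) ∧ C2 T₁ (n + 1) ≠ C2 T₂ (n + 1)) :=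
  Pool.Agent.H34.WT.pf_FIN m_MU m_SK Pool.Agent.H5.WT.PT.pf_PT

end Pool.Agent.Results.MP_0cb3c0_co.InitialSegments
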